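import Pool.Agent.H516.PCF.All

/-! MP_392fd3_nt, task MAH of helper516: Mahler measure bound for the iterates (helper230) -/

set_option autoImplicit false

open Polynomial

namespace Pool.Agent.H230.PCF

open Pool.Agent.H516.PCF

theorem mahler_le_sup (p : ℂ[X]) {B : ℝ} (hB : 1 ≤ B)
    (h : ∀ z : ℂ, ‖z‖ = 1 → ‖p.eval z‖ ≤ B) : p.mahlerMeasure ≤ B := by
  by_cases hp : p = 0
  · rw [hp, mahlerMeasure_zero]
    linarith
  · have h1 : p.logMahlerMeasure ≤ Real.log B := by
      rw [logMahlerMeasure_def]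
      apply Real.circleAverage_mono_on_of_le_circle
      · exact p.intervalIntegrable_mahlerMeasure
      · intro z hz
        have hz1 : ‖z‖ = 1 := by simpa using hz
        rcases eq_zero_or_norm_pos (p.eval z) with h0 | h0
        · rw [h0, norm_zero, Real.log_zero]
          exact Real.log_nonneg hB
        · exact Real.log_le_log h0 (h z hz1)
    rw [logMahlerMeasure_eq_log_MahlerMeasure] at h1
    exact (Real.log_le_log_iff (mahlerMeasure_pos_of_ne_zero hp) (by linarith)).1 h1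

/-- bound of the values of `hom` -/
theorem hom_le (d : ℕ) (R A B : ℂ[X]) (z : ℂ) {H : ℝ} (hA : ‖A.eval z‖ ≤ H)
    (hB : ‖B.eval z‖ ≤ H) :
    ‖(hom d R A B).eval z‖ ≤ (∑ i ∈ Finset.range (d + 1), ‖R.coeff i‖) * H ^ d := by
  have hH : 0 ≤ H := (norm_nonneg _).trans hA
  unfold hom
  rw [eval_finsetSum, Finset.sum_mul]
  refine norm_sum_le_of_le _ fun i hi => ?_
  have hi2 : i ≤ d := Nat.lt_succ_iff.1 (Finset.mem_range.1 hi)
  rw [eval_mul, eval_mul, eval_C, eval_pow, eval_pow, norm_mul, norm_mul, norm_pow, norm_pow,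
    mul_assoc]
  have e : H ^ d = H ^ i * H ^ (d - i) := by
    rw [← pow_add]
    congr 1
    omega
  rw [e]
  gcongr

theorem geom_le {d : ℕ} (hd : 2 ≤ d) (n : ℕ) : geom d n ≤ d ^ n := by
  induction n with
  | zero => simp [geom]
  | succ n ih =>
    have : geom d (n + 1) = geom d n + d ^ n := by
      unfold geom
      rw [Finset.sum_range_succ]
    rw [this, pow_succ]
    nlinarith [Nat.pos_of_ne_zero (pow_ne_zero n (by omega : d ≠ 0))]

theorem geom_succ' (d n : ℕ) : geom d (n + 1) = 1 + geom d n * d := by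
  unfold geom
  rw [Finset.sum_range_succ', add_comm, pow_zero, Finset.sum_mul]
  congr 1
  

theorem it_le {d : ℕ} (P Q : ℂ[X]) {h : ℝ} (h1 : 1 ≤ h)
    (hP : ∑ i ∈ Finset.range (d + 1), ‖P.coeff i‖ ≤ h)
    (hQ : ∑ i ∈ Finset.range (d + 1), ‖Q.coeff i‖ ≤ h) (z : ℂ) (hz : ‖z‖ = 1) (n : ℕ) :
    ‖(pn d P Q n).eval z‖ ≤ h ^ geom d n ∧ ‖(qn d P Q n).eval z‖ ≤ h ^ geom d n := by
  induction n with
  | zero => simp [pn, qn, it, geom, hz]
  | succ n ih =>
    have h0 : (0 : ℝ) ≤ h := by linarith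
    have e : h ^ geom d (n + 1) = h * (h ^ geom d n) ^ d := by
      rw [geom_succ', pow_add, pow_one, pow_mul]
    rw [e]
    constructor
    · refine (hom_le d P _ _ z ih.1 ih.2).trans ?_
      gcongr
    · refine (hom_le d Q _ _ z ih.1 ih.2).trans ?_
      gcongr

theorem mah (hDEG : S_DEG) : S_MAH := by
  intro d P Q hN t₀ r
  have hd := hN.two_le
  set h : ℝ := max 1 (max (∑ i ∈ Finset.range (d + 1), ‖P.coeff i‖)
    (∑ i ∈ Finset.range (d + 1), ‖Q.coeff i‖)) with hh
  have h1 : 1 ≤ h := le_max_left _ _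
  have hP : ∑ i ∈ Finset.range (d + 1), ‖P.coeff i‖ ≤ h :=
    (le_max_left _ _).trans (le_max_right _ _)
  have hQ : ∑ i ∈ Finset.range (d + 1), ‖Q.coeff i‖ ≤ h :=
    (le_max_right _ _).trans (le_max_right _ _)
  set a : ℝ := ‖P.leadingCoeff‖ with ha
  have hP0 : P ≠ 0 := by
    intro h0
    have := hN.degP
    rw [h0, natDegree_zero] at this
    omega
  have ha0 : 0 < a := norm_pos_iff.2 (leadingCoeff_ne_zero.2 hP0)
  set b : ℝ := max 1 a⁻¹ with hb
  have hb1 : 1 ≤ b := le_max_left _ _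
  set T : ℝ := 1 + (‖t₀‖ + |r|) with hT
  have hT1 : 1 ≤ T := by
    rw [hT]
    have := norm_nonneg t₀
    have := abs_nonneg r
    linarith
  refine ⟨2 * (T * h * b), by
    have : 1 ≤ T * h * b := one_le_mul_of_one_le_of_one_le
      (one_le_mul_of_one_le_of_one_le hT1 h1) hb1
    linarith, ?_⟩
  intro n t ht
  obtain ⟨-, -, -, -, -, hg, -⟩ := hDEG ℂ d P Q hN n
  obtain ⟨hg1, hg2⟩ := hg t
  have hd0 : 0 < d ^ n := by positivity
  -- bound on the circle
  have ht1 : 1 + ‖t‖ ≤ T := by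
    have h2 : ‖t‖ ≤ ‖t - t₀‖ + ‖t₀‖ := by
      have := norm_add_le (t - t₀) t₀
      rwa [sub_add_cancel] at this
    have := le_abs_self r
    rw [hT]
    linarith
  have hB : ∀ z : ℂ, ‖z‖ = 1 → ‖(gp d P Q n t).eval z‖ ≤ T * h ^ d ^ n := by
    intro z hz
    obtain ⟨b1, b2⟩ := it_le P Q h1 hP hQ z hz n
    have b3 : h ^ geom d n ≤ h ^ d ^ n := pow_le_pow_right₀ h1 (geom_le hd n)
    unfold gp
    rw [eval_sub, eval_mul, eval_C]
    calc ‖(pn d P Q n).eval z - t * (qn d P Q n).eval z‖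
        ≤ ‖(pn d P Q n).eval z‖ + ‖t * (qn d P Q n).eval z‖ := norm_sub_le _ _
      _ ≤ h ^ d ^ n + ‖t‖ * h ^ d ^ n := by
          rw [norm_mul]
          exact add_le_add (b1.trans b3) (mul_le_mul_of_nonneg_left (b2.trans b3) (norm_nonneg _))
      _ = (1 + ‖t‖) * h ^ d ^ n := by ring
      _ ≤ _ := by gcongr
  have hB1 : 1 ≤ T * h ^ d ^ n := one_le_mul_of_one_le_of_one_le hT1 (one_le_pow₀ h1)
  have hM := mahler_le_sup (gp d P Q n t) hB1 hB
  rw [mahlerMeasure_eq_leadingCoeff_mul_prod_roots, hg2, norm_pow, ← ha] at hM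
  -- the number of roots
  have hcard : (fib d P Q n t).card ≤ d ^ n := by
    unfold fib
    rw [← hg1]
    exact card_roots' _
  have h3 : ((fib d P Q n t).map fun β => 1 + ‖β‖).prod ≤
      2 ^ (fib d P Q n t).card * ((fib d P Q n t).map fun β => max 1 ‖β‖).prod := by
    generalize fib d P Q n t = s
    induction s using Multiset.induction_on with
    | empty => simp
    | cons β s ih =>
      rw [Multiset.map_cons, Multiset.prod_cons, Multiset.map_cons, Multiset.prod_cons,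
        Multiset.card_cons, pow_succ]
      have h4 : 1 + ‖β‖ ≤ 2 * max 1 ‖β‖ := by
        have := le_max_left 1 ‖β‖
        have := le_max_right 1 ‖β‖
        linarith
      have h5 : 0 ≤ (s.map fun β => 1 + ‖β‖).prod :=
        Multiset.prod_nonneg (by
          intro y hy
          obtain ⟨β, -, rfl⟩ := Multiset.mem_map.1 hy
          positivity)
      calc (1 + ‖β‖) * (s.map fun β => 1 + ‖β‖).prod
          ≤ (2 * max 1 ‖β‖) * (2 ^ s.card * (s.map fun β => max 1 ‖β‖).prod) :=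
            mul_le_mul h4 ih h5 (by positivity)
        _ = _ := by ring
  set S : ℝ := ((fib d P Q n t).map fun β => max 1 ‖β‖).prod with hS
  have hS1 : 1 ≤ S := one_le_prod_max_one_norm_roots _
  have h6 : S ≤ T * h ^ d ^ n * b ^ d ^ n := by
    have h7 : a ^ geom d n * S ≤ T * h ^ d ^ n := hM
    have h8 : 1 ≤ b ^ geom d n * a ^ geom d n := by
      rw [← mul_pow]
      apply one_le_pow₀
      have : a⁻¹ ≤ b := le_max_right _ _
      calc (1 : ℝ) = a⁻¹ * a := (inv_mul_cancel₀ ha0.ne').symm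
        _ ≤ b * a := mul_le_mul_of_nonneg_right this ha0.le
    calc S = 1 * S := (one_mul S).symm
      _ ≤ (b ^ geom d n * a ^ geom d n) * S := mul_le_mul_of_nonneg_right h8 (by linarith)
      _ = b ^ geom d n * (a ^ geom d n * S) := by ring
      _ ≤ b ^ d ^ n * (T * h ^ d ^ n) :=
          mul_le_mul (pow_le_pow_right₀ hb1 (geom_le hd n)) h7
            (by positivity) (by positivity)
      _ = _ := by ring
  have h9 : T ≤ T ^ d ^ n := by
    calc T = T ^ 1 := (pow_one T).symm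
      _ ≤ T ^ d ^ n := pow_le_pow_right₀ hT1 hd0
  calc ((fib d P Q n t).map fun β => 1 + ‖β‖).prod ≤ 2 ^ (fib d P Q n t).card * S := h3
    _ ≤ 2 ^ d ^ n * (T ^ d ^ n * h ^ d ^ n * b ^ d ^ n) := by
        have h10 : (2 : ℝ) ^ (fib d P Q n t).card ≤ 2 ^ d ^ n :=
          pow_le_pow_right₀ (by norm_num) hcard
        refine mul_le_mul h10 (h6.trans ?_) (by linarith) (by positivity)
        gcongr
    _ = _ := by
        rw [← mul_pow, ← mul_pow, ← mul_pow]

end Pool.Agent.H230.PCF
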